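import Pool.Agent.N813.EM.Stm

/-!
# Project EM (helper813): the main estimate
-/

set_option autoImplicit false

open MeasureTheory Filter Set Metric

universe v

namespace Pool.Agent.N738.EM.MID

open Pool.Agent.N813.EM

theorem t : S_MID.{v} := by
  intro B _ _ _ μ _ g g' Λ hΛ hg hg' hinv hμ C κ β q hC hκ hβ h2 h3 L φ ψ n G E hL hφ hψ hn hE hs hp hfin
  classical
  have hΛ0 : 0 ≤ Λ := zero_le_one.trans hΛ
  have hL0 : 0 ≤ L := zero_le_one.trans hL
  have hC0 : 0 ≤ C := zero_le_one.trans hC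
  have hΛG : 1 ≤ Λ ^ G := one_le_pow₀ hΛ
  set m := ∫ x, φ x ∂μ with hm
  set p := ∫ x, ψ x ∂μ with hpdef
  set L' := 2 * L * Λ ^ G with hL'
  have hLL' : L ≤ L' := by
    rw [hL']
    nlinarith [mul_nonneg hL0 (sub_nonneg.mpr hΛG)]
  have hL1 : 1 ≤ L' := hL.trans hLL'
  set e2 := C * L' ^ q * Real.exp (-(κ * (n : ℝ) ^ β)) with he2
  set e3 := C * L ^ q * Real.exp (-(κ * ((G : ℝ) + 1) ^ β)) with he3
  have he20 : 0 ≤ e2 := by
    rw [he2]
    have : 0 ≤ L' := zero_le_one.trans hL1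
    positivity
  have he30 : 0 ≤ e3 := by
    rw [he3]
    positivity
  have he2E : e2 ≤ E := by linarith
  have he3E : e3 ≤ E := by linarith
  have hE0 : 0 ≤ E := he20.trans he2E
  have hm0 : 0 ≤ m := hφ.integral_nonneg
  have hp0 : 0 ≤ p := hψ.integral_nonneg
  by_contra hcon
  push Not at hcon
  -- observables
  have oU : ∀ i, Obs (L + L * Λ ^ i) (fun x => φ x * ψ (g^[i] x)) := fun i =>
    hφ.mul (hψ.comp_iter hL0 hΛ0 hg i)
  have oW : ∀ i, Obs (L + L * Λ ^ i) (fun x => φ x * ψ (g'^[i] x)) := fun i =>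
    hφ.mul (hψ.comp_iter hL0 hΛ0 hg' i)
  have hle : ∀ i, i ≤ G → L + L * Λ ^ i ≤ L' := by
    intro i hi
    have h5 : Λ ^ i ≤ Λ ^ G := pow_le_pow_right₀ hΛ hi
    have h6 : L * Λ ^ i ≤ L * Λ ^ G := mul_le_mul_of_nonneg_left h5 hL0
    have h7 : L ≤ L * Λ ^ G := le_mul_of_one_le_right hL0 hΛG
    rw [hL']
    linarith
  have ox : ∀ i, Obs (L + L * Λ ^ i + L * Λ ^ n) (fun x => φ x * ψ (g^[i] x) * φ (g^[n] x)) := fun i =>
    (oU i).mul (hφ.comp_iter hL0 hΛ0 hg n)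
  have oa : Obs (L + L * Λ ^ n) (fun x => φ x * φ (g^[n] x)) :=
    hφ.mul (hφ.comp_iter hL0 hΛ0 hg n)
  -- the pointwise inequality
  have hpt : ∀ x, φ x * φ (g^[n] x) ≤ ∑ i ∈ Finset.Ioo 0 n, φ x * ψ (g^[i] x) * φ (g^[n] x) := by
    intro x
    have hnn : ∀ i ∈ Finset.Ioo 0 n, 0 ≤ φ x * ψ (g^[i] x) * φ (g^[n] x) := fun i _ => ((ox i).1 x).1
    by_cases h5 : φ x = 0
    · have h9 := Finset.sum_nonneg hnn
      have h10 : φ x * φ (g^[n] x) = 0 := by rw [h5, zero_mul]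
      rw [h10]
      exact h9
    by_cases h6 : φ (g^[n] x) = 0
    · have h9 := Finset.sum_nonneg hnn
      have h10 : φ x * φ (g^[n] x) = 0 := by rw [h6, mul_zero]
      rw [h10]
      exact h9
    obtain ⟨i, hi0, hin, hi1⟩ := hcon x h5 h6
    have h7 : ψ (g^[i] x) = 1 := le_antisymm (hψ.1 _).2 hi1
    have h8 := Finset.single_le_sum hnn (Finset.mem_Ioo.mpr ⟨hi0, hin⟩)
    rw [h7, mul_one] at h8
    exact h8
  have hint : ∫ x, φ x * φ (g^[n] x) ∂μ ≤
      ∑ i ∈ Finset.Ioo 0 n, ∫ x, φ x * ψ (g^[i] x) * φ (g^[n] x) ∂μ := by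
    rw [← integral_finsetSum _ fun i _ => (ox i).integrable]
    exact integral_mono oa.integrable (integrable_finsetSum _ fun i _ => (ox i).integrable) hpt
  -- (a)
  have ha : m * m - e2 ≤ ∫ x, φ x * φ (g^[n] x) ∂μ := by
    have h5 := h2 L' φ φ hL1 (hφ.mono hLL') (hφ.mono hLL') n
    have h6 := (abs_le.mp h5).1
    rw [← hm, ← he2] at h6
    linarith
  -- the four cases
  have hx : ∀ i ∈ Finset.Ioo 0 n, ∫ x, φ x * ψ (g^[i] x) * φ (g^[n] x) ∂μ ≤
      (if i ≤ G then m * ∫ x, φ x * ψ (g^[i] x) ∂μ else 0) +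
      (if n - i ≤ G then m * ∫ x, φ x * ψ (g'^[n - i] x) ∂μ else 0) + (m ^ 2 * p + E) := by
    intro i hi
    rw [Finset.mem_Ioo] at hi
    have nU : 0 ≤ m * ∫ x, φ x * ψ (g^[i] x) ∂μ := mul_nonneg hm0 (oU i).integral_nonneg
    have nW : 0 ≤ m * ∫ x, φ x * ψ (g'^[n - i] x) ∂μ := mul_nonneg hm0 (oW (n - i)).integral_nonneg
    have nW' : 0 ≤ (if n - i ≤ G then m * ∫ x, φ x * ψ (g'^[n - i] x) ∂μ else 0) := by
      split_ifs
      · exact nW
      · exact le_refl 0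
    have nE : 0 ≤ m ^ 2 * p := by positivity
    by_cases c1 : i ≤ G
    · rw [if_pos c1]
      have h5 := h2 L' (fun x => φ x * ψ (g^[i] x)) φ hL1 ((oU i).mono (hle i c1)) (hφ.mono hLL') n
      have h6 := (abs_le.mp h5).2
      rw [← hm, ← he2] at h6
      have h7 : (∫ x, φ x * ψ (g^[i] x) ∂μ) * m = m * ∫ x, φ x * ψ (g^[i] x) ∂μ := mul_comm _ _
      linarith
    rw [if_neg c1]
    by_cases c2 : n - i ≤ G
    · rw [if_pos c2]
      have h5 := h2 L' φ (fun x => φ x * ψ (g'^[n - i] x)) hL1 (hφ.mono hLL')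
        ((oW (n - i)).mono (hle _ c2)) n
      have h6 := (abs_le.mp h5).2
      rw [← hm, ← he2] at h6
      have h7 : ∀ x, φ x * (φ (g^[n] x) * ψ (g'^[n - i] (g^[n] x))) =
          φ x * ψ (g^[i] x) * φ (g^[n] x) := by
        intro x
        have h8 : g^[n] x = g^[n - i] (g^[i] x) := by
          rw [← Function.iterate_add_apply, Nat.sub_add_cancel hi.2.le]
        have h9 : g'^[n - i] (g^[n] x) = g^[i] x := by
          rw [h8]
          exact (Function.LeftInverse.iterate hinv (n - i)) (g^[i] x)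
        rw [h9]
        ring
      simp only [h7] at h6
      linarith
    · rw [if_neg c2]
      have h5 := h3 L φ ψ φ hL hφ hψ hφ i (n - i)
      have h6 := (abs_le.mp h5).2
      rw [Nat.add_sub_cancel' hi.2.le, ← hm, ← hpdef] at h6
      have h7 : C * L ^ q * Real.exp (-(κ * ((min i (n - i) : ℕ) : ℝ) ^ β)) ≤ e3 := by
        rw [he3]
        apply mul_le_mul_of_nonneg_left _ (by positivity)
        apply Real.exp_le_exp.mpr
        apply neg_le_neg
        apply mul_le_mul_of_nonneg_left _ hκ.le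
        apply Real.rpow_le_rpow (by positivity) _ hβ.le
        have h8 : G + 1 ≤ min i (n - i) := le_min (by omega) (by omega)
        exact_mod_cast h8
      have h9 : m * p * m = m ^ 2 * p := by ring
      linarith
  -- the sum
  have hsum1 : ∑ i ∈ Finset.Ioo 0 n, (if i ≤ G then m * ∫ x, φ x * ψ (g^[i] x) ∂μ else 0) ≤
      m * ∑ i ∈ Finset.Icc 1 G, ∫ x, φ x * ψ (g^[i] x) ∂μ := by
    rw [← Finset.sum_filter, Finset.mul_sum]
    apply Finset.sum_le_sum_of_subset_of_nonneg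
    · intro i hi
      rw [Finset.mem_filter, Finset.mem_Ioo] at hi
      rw [Finset.mem_Icc]
      omega
    · intro i _ _
      exact mul_nonneg hm0 (oU i).integral_nonneg
  have hsum2 : ∑ i ∈ Finset.Ioo 0 n, (if n - i ≤ G then m * ∫ x, φ x * ψ (g'^[n - i] x) ∂μ else 0) ≤
      m * ∑ i ∈ Finset.Icc 1 G, ∫ x, φ x * ψ (g'^[i] x) ∂μ := by
    rw [← Finset.sum_filter, Finset.mul_sum]
    have h5 : ∑ i ∈ (Finset.Ioo 0 n).filter (fun i => n - i ≤ G), m * ∫ x, φ x * ψ (g'^[n - i] x) ∂μ =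
        ∑ j ∈ ((Finset.Ioo 0 n).filter (fun i => n - i ≤ G)).image (fun i => n - i),
          m * ∫ x, φ x * ψ (g'^[j] x) ∂μ := by
      rw [Finset.sum_image]
      intro i hi j hj hij
      rw [Finset.mem_coe, Finset.mem_filter, Finset.mem_Ioo] at hi hj
      simp only at hij
      omega
    rw [h5]
    apply Finset.sum_le_sum_of_subset_of_nonneg
    · intro j hj
      rw [Finset.mem_image] at hj
      obtain ⟨i, hi, rfl⟩ := hj
      rw [Finset.mem_filter, Finset.mem_Ioo] at hi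
      rw [Finset.mem_Icc]
      omega
    · intro i _ _
      exact mul_nonneg hm0 (oW i).integral_nonneg
  have hcard : ∑ _i ∈ Finset.Ioo 0 n, (m ^ 2 * p + E) ≤ n * (m ^ 2 * p + E) := by
    rw [Finset.sum_const, nsmul_eq_mul, Nat.card_Ioo]
    apply mul_le_mul_of_nonneg_right _ (by positivity)
    exact_mod_cast (by omega : n - 0 - 1 ≤ n)
  have htot := (hint.trans (Finset.sum_le_sum hx))
  rw [Finset.sum_add_distrib, Finset.sum_add_distrib] at htot
  rw [Finset.sum_add_distrib] at hs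
  have h10 : m * (∑ i ∈ Finset.Icc 1 G, ∫ x, φ x * ψ (g^[i] x) ∂μ) +
      m * (∑ i ∈ Finset.Icc 1 G, ∫ x, φ x * ψ (g'^[i] x) ∂μ) ≤ m * (m / 8) := by
    rw [← mul_add]
    exact mul_le_mul_of_nonneg_left hs hm0
  have h11 : m ^ 2 * (n * p) ≤ m ^ 2 * (1 / 8) := mul_le_mul_of_nonneg_left hp (sq_nonneg m)
  nlinarith [sq_nonneg m]

end Pool.Agent.N738.EM.MID
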